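import Mathlib

/-!
# Binomial linear relations for coloured Gaussian cycle models

A coloured `6`-cycle with all vertices of one colour, without nontrivial symmetries, for which a
binomial linear form vanishes on the inverse space.
-/

namespace Pool.Agent.Results.MP_c04d7c_ag.SixCycle

open MvPolynomial

/-- A coloured graph: a simple graph with a colouring of the vertices and of the edges; the colour
classes are the fibres of `vcol` (on vertices) and of `ecol` (on edges). -/
structure ColouredGraph (V : Type) where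
  /-- the underlying graph -/
  graph : SimpleGraph V
  /-- the vertex colouring -/
  vcol : V → ℕ
  /-- the edge colouring -/
  ecol : Sym2 V → ℕ

variable {V : Type}

/-- The linear space of the coloured graph. -/
def linearSpace (G : ColouredGraph V) : Set (Matrix V V ℝ) :=
  {K | K.IsSymm ∧ (∀ i j, i ≠ j → ¬ G.graph.Adj i j → K i j = 0) ∧
    (∀ i j, G.vcol i = G.vcol j → K i i = K j j) ∧
    (∀ i j k l, G.graph.Adj i j → G.graph.Adj k l → G.ecol s(i, j) = G.ecol s(k, l) →
      K i j = K k l)}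

/-- The inverse space, as a set of points `x` with coordinates `x_{ij}` indexed by unordered
pairs. -/
def inverseSpace [Fintype V] [DecidableEq V] (G : ColouredGraph V) : Set (Sym2 V → ℝ) :=
  {x | ∃ K ∈ linearSpace G, IsUnit K ∧ ∀ i j, x s(i, j) = K⁻¹ i j}

/-- A symmetry of the coloured graph. -/
def IsSymmetry (G : ColouredGraph V) (σ : Equiv.Perm V) : Prop :=
  (∀ i j, G.graph.Adj (σ i) (σ j) ↔ G.graph.Adj i j) ∧ (∀ i, G.vcol (σ i) = G.vcol i) ∧
    (∀ i j, G.graph.Adj i j → G.ecol s(σ i, σ j) = G.ecol s(i, j))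

/-- The linear forms induced by symmetries: the real span of all `x_{ij} - x_{σ(i)σ(j)}`. -/
noncomputable def inducedForms (G : ColouredGraph V) : Submodule ℝ (MvPolynomial (Sym2 V) ℝ) :=
  Submodule.span ℝ {P | ∃ σ : Equiv.Perm V, IsSymmetry G σ ∧ ∃ i j,
    P = X s(i, j) - X s(σ i, σ j)}

/-- The coloured six-cycle: edges `01, 12, 34` of one colour and `23, 45, 50` of another. -/
def G6 : ColouredGraph (Fin 6) where
  graph := SimpleGraph.cycleGraph 6
  vcol := fun _ => 0
  ecol := fun e => if e = s(0, 1) ∨ e = s(1, 2) ∨ e = s(3, 4) then 0 else 1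

instance : DecidableRel G6.graph.Adj := inferInstanceAs (DecidableRel (SimpleGraph.cycleGraph 6).Adj)

lemma matrix_form (K : Matrix (Fin 6) (Fin 6) ℝ) (hK : K ∈ linearSpace G6) :
    ∃ a p q : ℝ, K = !![a, p, 0, 0, 0, q;
                        p, a, p, 0, 0, 0;
                        0, p, a, q, 0, 0;
                        0, 0, q, a, p, 0;
                        0, 0, 0, p, a, q;
                        q, 0, 0, 0, q, a] := by
  obtain ⟨hs, h0, hv, he⟩ := hK
  have hsy : ∀ i j, K j i = K i j := fun i j => hs.apply i j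
  have hd : ∀ i, K i i = K 0 0 := fun i => hv i 0 rfl
  have h12 : K 1 2 = K 0 1 := he 1 2 0 1 (by decide) (by decide) (by decide)
  have h34 : K 3 4 = K 0 1 := he 3 4 0 1 (by decide) (by decide) (by decide)
  have h23 : K 2 3 = K 5 0 := he 2 3 5 0 (by decide) (by decide) (by decide)
  have h45 : K 4 5 = K 5 0 := he 4 5 5 0 (by decide) (by decide) (by decide)
  have h02 : K 0 2 = 0 := h0 0 2 (by decide) (by decide)
  have h03 : K 0 3 = 0 := h0 0 3 (by decide) (by decide)
  have h04 : K 0 4 = 0 := h0 0 4 (by decide) (by decide)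
  have h13 : K 1 3 = 0 := h0 1 3 (by decide) (by decide)
  have h14 : K 1 4 = 0 := h0 1 4 (by decide) (by decide)
  have h15 : K 1 5 = 0 := h0 1 5 (by decide) (by decide)
  have h24 : K 2 4 = 0 := h0 2 4 (by decide) (by decide)
  have h25 : K 2 5 = 0 := h0 2 5 (by decide) (by decide)
  have h35 : K 3 5 = 0 := h0 3 5 (by decide) (by decide)
  have h05 : K 0 5 = K 5 0 := hsy 5 0
  refine ⟨K 0 0, K 0 1, K 5 0, ?_⟩
  ext i j
  fin_cases i <;> fin_cases j <;>
    simp [h12, h34, h23, h45, h02, h03, h04, h13, h14, h15, h24, h25, h35, h05, hd 1, hd 2, hd 3,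
      hd 4, hd 5, hsy 0 1, hsy 0 2, hsy 0 3, hsy 0 4, hsy 1 2, hsy 1 3, hsy 1 4, hsy 1 5,
      hsy 2 3, hsy 2 4, hsy 2 5, hsy 3 4, hsy 3 5, hsy 4 5]

lemma inv_entry (K : Matrix (Fin 6) (Fin 6) ℝ) (hK : K ∈ linearSpace G6) :
    K⁻¹ 1 5 = K⁻¹ 2 4 := by
  obtain ⟨a, p, q, rfl⟩ := matrix_form K hK
  rw [Matrix.inv_def, Matrix.smul_apply, Matrix.smul_apply,
    Matrix.adjugate_fin_succ_eq_det_submatrix, Matrix.adjugate_fin_succ_eq_det_submatrix]
  congr 1
  simp [Matrix.det_succ_row_zero, Fin.sum_univ_succ, Fin.succAbove]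
  ring

lemma symm_trivial_check : ∀ σ : Equiv.Perm (Fin 6),
    ((∀ i j, G6.graph.Adj (σ i) (σ j) ↔ G6.graph.Adj i j) ∧
      (∀ i j, G6.graph.Adj i j → G6.ecol s(σ i, σ j) = G6.ecol s(i, j))) → σ = 1 := by
  decide +kernel

lemma symm_trivial (σ : Equiv.Perm (Fin 6)) (h : IsSymmetry G6 σ) : σ = 1 :=
  symm_trivial_check σ ⟨h.1, h.2.2⟩

lemma inducedForms_eq_bot : inducedForms G6 = ⊥ := by
  rw [eq_bot_iff, inducedForms, Submodule.span_le]
  rintro P ⟨σ, hσ, i, j, rfl⟩
  rw [symm_trivial σ hσ]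
  simp

/-- **Disproof.** There is a coloured `n`-cycle (here `n = 6`, with all vertices of one colour)
such that the vanishing ideal of `L⁻¹` contains a linear form with exactly two nonzero
coefficients that is not in the span of the forms induced by symmetries. -/
theorem result : ∃ n : ℕ, 3 ≤ n ∧ ∃ G : ColouredGraph (Fin n),
    G.graph = SimpleGraph.cycleGraph n ∧ (∀ i j, G.vcol i = G.vcol j) ∧
    ∃ P : MvPolynomial (Sym2 (Fin n)) ℝ, P ∈ vanishingIdeal ℝ (inverseSpace G) ∧
      P.IsHomogeneous 1 ∧ P.support.card = 2 ∧ P ∉ inducedForms G := by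
  refine ⟨6, by norm_num, G6, rfl, fun _ _ => rfl, X s(1, 5) - X s(2, 4), ?_, ?_, ?_, ?_⟩
  · rw [mem_vanishingIdeal_iff]
    rintro x ⟨K, hK, _, hx⟩
    simp only [map_sub, aeval_X, hx]
    rw [inv_entry K hK, sub_self]
  · exact (isHomogeneous_X ℝ _).sub (isHomogeneous_X ℝ _)
  · have hne : (Finsupp.single (s(1, 5) : Sym2 (Fin 6)) 1 : Sym2 (Fin 6) →₀ ℕ)
        ≠ Finsupp.single s(2, 4) 1 := by
      intro h
      have := Finsupp.single_left_injective (by norm_num : (1 : ℕ) ≠ 0) h
      exact absurd this (by decide)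
    have : (X s(1, 5) - X s(2, 4) : MvPolynomial (Sym2 (Fin 6)) ℝ).support
        = {Finsupp.single s(1, 5) 1, Finsupp.single s(2, 4) 1} := by
      ext m
      rw [mem_support_iff, coeff_sub, coeff_X', coeff_X', Finset.mem_insert,
        Finset.mem_singleton]
      by_cases h1 : Finsupp.single s(1, 5) 1 = m
      · by_cases h2 : Finsupp.single s(2, 4) 1 = m
        · exact absurd (h1.trans h2.symm) hne
        · simp [h1, h2]
      · by_cases h2 : Finsupp.single s(2, 4) 1 = m
        · simp [h1, h2]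
        · simp [h1, h2, Ne.symm h1, Ne.symm h2]
    rw [this, Finset.card_pair hne]
  · rw [inducedForms_eq_bot, Submodule.mem_bot, sub_eq_zero]
    intro h
    exact absurd (X_injective h) (by decide)

end Pool.Agent.Results.MP_c04d7c_ag.SixCycle
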